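import Mathlib

/-!
# The 2-adic valuation of the coefficients of the 5th and 9th powers of the Thue-Morse product

With `F(x) = ∏ (1 - x^(2^i))` and `F^m = ∑ t_m(n) x^n` we prove, for all `n` and with
`v = ν₂(n + 1)`,
`ν₂(t_5(4n + j)) = 4⌈v/2⌉ - (v mod 2)` for `j < 4` and
`ν₂(t_9(8n + j)) = 5⌈v/2⌉ - 2(v mod 2)` for `j < 8`.

Proof: with `m = 2^k + 1`, the vector `y_v = (t_m(N_v), …, t_m(N_v - 2^k + 1))`,
`N_v = 2^(v+k) (2 n' + 1) - 1`, satisfies `y_{v+1} = B y_v` for a fixed `2^k × 2^k` matrix `B`, whose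
characteristic polynomial is `x^4 - 80 x^2 + 1024` for `k = 2` and
`x^8 - 6560 x^6 + 8472576 x^4 - 2235564032 x^2 + 2^36` for `k = 3`.
-/

set_option autoImplicit false

namespace Pool.Agent.Results.MP_1a5b88_nt.FiveNine

open Finset Polynomial Matrix

/-- `t m n` is the coefficient of `x^n` in `∏_{i ≥ 0} (1 - x^(2^i))^m`.  The factors with `i > n`
do not contribute to this coefficient (as `2^i > n`), so the product may be cut at `i ≤ n`. -/
noncomputable def t (m n : ℕ) : ℤ := (∏ i ∈ range (n + 1), (1 - (X : ℤ[X]) ^ (2 ^ i)) ^ m).coeff n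

/-- the partial products -/
noncomputable def G (m N : ℕ) : ℤ[X] := ∏ i ∈ range N, (1 - (X : ℤ[X]) ^ (2 ^ i)) ^ m

theorem G_succ (m N : ℕ) : G m (N + 1) = (1 - X) ^ m * expand ℤ 2 (G m N) := by
  unfold G
  rw [prod_range_succ', mul_comm]
  congr 1
  · simp
  · rw [map_prod]
    refine prod_congr rfl fun i _ => ?_
    simp only [map_pow, map_sub, map_one, expand_X]
    rw [← pow_mul, pow_succ, mul_comm 2]

theorem G_succ' (m N : ℕ) : G m (N + 1) = G m N * (1 - (X : ℤ[X]) ^ (2 ^ N)) ^ m := by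
  unfold G
  rw [prod_range_succ]

theorem coeff_stable {m N n : ℕ} (h : n < 2 ^ N) : (G m (N + 1)).coeff n = (G m N).coeff n := by
  rw [G_succ']
  obtain ⟨Q, hQ⟩ : ∃ Q : ℤ[X], (1 - (X : ℤ[X]) ^ (2 ^ N)) ^ m = 1 + X ^ (2 ^ N) * Q := by
    have h1 : (X : ℤ[X]) ^ (2 ^ N) ∣ (1 - (X : ℤ[X]) ^ (2 ^ N)) ^ m - 1 := by
      have := sub_dvd_pow_sub_pow (1 - (X : ℤ[X]) ^ (2 ^ N)) 1 m
      rw [one_pow] at this
      refine dvd_trans ⟨-1, by ring⟩ this
    obtain ⟨Q, hQ⟩ := h1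
    exact ⟨Q, by linear_combination hQ⟩
  rw [hQ, mul_add, mul_one, coeff_add]
  have : (G m N * (X ^ (2 ^ N) * Q)).coeff n = 0 := by
    rw [show G m N * (X ^ (2 ^ N) * Q) = (G m N * Q) * X ^ (2 ^ N) by ring, coeff_mul_X_pow']
    rw [if_neg (by omega)]
  rw [this, add_zero]

theorem coeff_stable' {m N n : ℕ} (h : n < 2 ^ N) (M : ℕ) :
    (G m (N + M)).coeff n = (G m N).coeff n := by
  induction M with
  | zero => rfl
  | succ M ih =>
    rw [← add_assoc, coeff_stable (lt_of_lt_of_le h (Nat.pow_le_pow_right (by norm_num) (by omega))),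
      ih]

/-- the coefficients do not depend on where the product is cut -/
theorem coeff_G_eq {m N n : ℕ} (h : n < 2 ^ N) : (G m N).coeff n = t m n := by
  have h2 : n < 2 ^ (n + 1) :=
    lt_of_lt_of_le (Nat.lt_two_pow_self) (Nat.pow_le_pow_right (by norm_num) (by omega))
  have e1 : t m n = (G m (n + 1)).coeff n := rfl
  rw [e1]
  rcases le_total N (n + 1) with hle | hle
  · obtain ⟨M, hM⟩ := Nat.exists_eq_add_of_le hle
    rw [hM, coeff_stable' h]
  · obtain ⟨M, hM⟩ := Nat.exists_eq_add_of_le hle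
    rw [hM, coeff_stable' h2]

/-- coefficients with an integer index -/
noncomputable def T (m : ℕ) (z : ℤ) : ℤ := if z < 0 then 0 else t m z.toNat

theorem T_natCast (m n : ℕ) : T m n = t m n := by
  unfold T
  rw [if_neg (by omega)]
  simp

theorem one_sub_X_pow (m : ℕ) :
    (1 - X : ℤ[X]) ^ m = ∑ j ∈ range (m + 1), C ((-1) ^ j * (m.choose j : ℤ)) * X ^ j := by
  rw [sub_eq_add_neg, add_comm, add_pow]
  refine sum_congr rfl fun j _ => ?_
  rw [neg_pow]
  simp
  ring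

theorem T_rec (m : ℕ) (z : ℤ) :
    T m z = ∑ j ∈ range (m + 1), (-1) ^ j * (m.choose j : ℤ) *
      (if (z - j) % 2 = 0 then T m ((z - j) / 2) else 0) := by
  by_cases hz : z < 0
  · rw [T, if_pos hz]
    symm
    refine sum_eq_zero fun j _ => ?_
    have : (z - j) / 2 < 0 := by omega
    rw [T, if_pos this]
    simp
  · obtain ⟨n, rfl⟩ := Int.eq_ofNat_of_zero_le (not_lt.mp hz)
    have h2 : n < 2 ^ n := Nat.lt_two_pow_self
    have h3 : n < 2 ^ (n + 1) := lt_of_lt_of_le h2 (Nat.pow_le_pow_right (by norm_num) (by omega))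
    rw [T_natCast, ← coeff_G_eq h3, G_succ, one_sub_X_pow, sum_mul, finsetSum_coeff]
    refine sum_congr rfl fun j _ => ?_
    rw [mul_assoc, coeff_C_mul, coeff_X_pow_mul']
    congr 1
    by_cases hj : j ≤ n
    · rw [if_pos hj, coeff_expand (by norm_num)]
      by_cases h2' : 2 ∣ n - j
      · rw [if_pos h2', if_pos (by omega)]
        have e : ((n : ℤ) - j) / 2 = (((n - j) / 2 : ℕ) : ℤ) := by omega
        rw [e, T_natCast, coeff_G_eq (by omega)]
      · rw [if_neg h2', if_neg (by omega)]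
    · rw [if_neg hj]
      split_ifs with h1
      · rw [T, if_pos (by omega)]
      · rfl

theorem T_neg (m : ℕ) {z : ℤ} (h : z < 0) : T m z = 0 := by rw [T, if_pos h]

theorem T_zero (m : ℕ) : T m 0 = 1 := by
  have : T m 0 = t m 0 := T_natCast m 0
  rw [this, t]
  simp [Polynomial.coeff_zero_eq_eval_zero]

/-! ### Numbers of the form `2^e * odd` -/

/-- `x` is exactly divisible by `2^e` -/
def P (e : ℕ) (x : ℤ) : Prop := ∃ z : ℤ, Odd z ∧ x = 2 ^ e * z

theorem P.val {e : ℕ} {x : ℤ} (h : P e x) : x ≠ 0 ∧ padicValInt 2 x = e := by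
  obtain ⟨z, hz, rfl⟩ := h
  have hz0 : z ≠ 0 := by rintro rfl; simp at hz
  refine ⟨mul_ne_zero (pow_ne_zero _ (by norm_num)) hz0, ?_⟩
  rw [padicValInt.mul (pow_ne_zero _ (by norm_num)) hz0]
  have h1 : padicValInt 2 ((2 : ℤ) ^ e) = e := by
    have := padicValInt.self (p := 2) (by norm_num)
    rw [show ((2 : ℤ) ^ e) = (((2 : ℕ) ^ e : ℕ) : ℤ) by push_cast; rfl, padicValInt.of_nat,
      padicValNat.prime_pow]
  have h2 : padicValInt 2 z = 0 := by
    rw [padicValInt.eq_zero_iff]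
    right; right
    intro h
    rw [← Int.not_even_iff_odd] at hz
    exact hz (even_iff_two_dvd.mpr (by exact_mod_cast h))
  rw [h1, h2, add_zero]

/-! ### The case `m = 5` -/

namespace Five

theorem T_even (z : ℤ) : T 5 (2 * z) = T 5 z + 10 * T 5 (z - 1) + 5 * T 5 (z - 2) := by
  rw [T_rec]
  simp only [sum_range_succ, range_zero, sum_empty]
  rw [if_pos (by omega : (2 * z - ((0 : ℕ) : ℤ)) % 2 = 0), show (2 * z - ((0 : ℕ) : ℤ)) / 2 = z by omega]
  rw [if_neg (by omega : ¬ (2 * z - ((1 : ℕ) : ℤ)) % 2 = 0)]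
  rw [if_pos (by omega : (2 * z - ((2 : ℕ) : ℤ)) % 2 = 0), show (2 * z - ((2 : ℕ) : ℤ)) / 2 = z - 1 by omega]
  rw [if_neg (by omega : ¬ (2 * z - ((3 : ℕ) : ℤ)) % 2 = 0)]
  rw [if_pos (by omega : (2 * z - ((4 : ℕ) : ℤ)) % 2 = 0), show (2 * z - ((4 : ℕ) : ℤ)) / 2 = z - 2 by omega]
  rw [if_neg (by omega : ¬ (2 * z - ((5 : ℕ) : ℤ)) % 2 = 0)]
  norm_num [Nat.choose]

theorem T_odd (z : ℤ) : T 5 (2 * z + 1) = -(5 * T 5 z + 10 * T 5 (z - 1) + T 5 (z - 2)) := by
  rw [T_rec]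
  simp only [sum_range_succ, range_zero, sum_empty]
  rw [if_neg (by omega : ¬ (2 * z + 1 - ((0 : ℕ) : ℤ)) % 2 = 0)]
  rw [if_pos (by omega : (2 * z + 1 - ((1 : ℕ) : ℤ)) % 2 = 0), show (2 * z + 1 - ((1 : ℕ) : ℤ)) / 2 = z by omega]
  rw [if_neg (by omega : ¬ (2 * z + 1 - ((2 : ℕ) : ℤ)) % 2 = 0)]
  rw [if_pos (by omega : (2 * z + 1 - ((3 : ℕ) : ℤ)) % 2 = 0), show (2 * z + 1 - ((3 : ℕ) : ℤ)) / 2 = z - 1 by omega]
  rw [if_neg (by omega : ¬ (2 * z + 1 - ((4 : ℕ) : ℤ)) % 2 = 0)]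
  rw [if_pos (by omega : (2 * z + 1 - ((5 : ℕ) : ℤ)) % 2 = 0), show (2 * z + 1 - ((5 : ℕ) : ℤ)) / 2 = z - 2 by omega]
  norm_num [Nat.choose]
  ring

/-- the window of `5` coefficients ending at `z` -/
noncomputable def W (z : ℤ) : Fin 5 → ℤ := fun i => T 5 (z - ((i : ℕ) : ℤ))

/-- `W (2z) = M0 (W z)` -/
def M0 : Matrix (Fin 5) (Fin 5) ℤ :=
    !![1, 10, 5, 0, 0;
    0, -5, -10, -1, 0;
    0, 1, 10, 5, 0;
    0, 0, -5, -10, -1;
    0, 0, 1, 10, 5]

/-- `W (2z+1) = M1 (W z)` -/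
def M1 : Matrix (Fin 5) (Fin 5) ℤ :=
    !![-5, -10, -1, 0, 0;
    1, 10, 5, 0, 0;
    0, -5, -10, -1, 0;
    0, 1, 10, 5, 0;
    0, 0, -5, -10, -1]

/-- the upper left block of `M1` -/
def B : Matrix (Fin 4) (Fin 4) ℤ :=
    !![-5, -10, -1, 0;
    1, 10, 5, 0;
    0, -5, -10, -1;
    0, 1, 10, 5]

def P1 : Matrix (Fin 5) (Fin 5) ℤ :=
    !![-5, -1, 65, 5, 0;
    1, -35, -45, 15, 0;
    0, 15, -45, -35, 1;
    0, 5, 65, -1, -5;
    0, -5, -1, 65, 5]

theorem P1_eq : M1 * M0 = P1 := by decide +kernel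

def P2 : Matrix (Fin 5) (Fin 5) ℤ :=
    !![15, 340, 170, -140, -1;
    5, -276, -610, -20, 5;
    -5, 20, 610, 276, -5;
    1, 140, -170, -340, -15;
    0, -120, -424, 120, 40]

theorem P2_eq : M1 * P1 = P2 := by decide +kernel

/-- rows `(1, 0, …, 0, 1)` -/
def J : Matrix (Fin 4) (Fin 5) ℤ :=
    !![1, 0, 0, 0, 1;
    1, 0, 0, 0, 1;
    1, 0, 0, 0, 1;
    1, 0, 0, 0, 1]

def K0 : Matrix (Fin 4) (Fin 5) ℤ :=
    !![7, 170, 85, -70, -1;
    2, -138, -305, -10, 2;
    -3, 10, 305, 138, -3;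
    0, 70, -85, -170, -8]

def K1 : Matrix (Fin 4) (Fin 5) ℤ :=
    !![-8, 65, 290, 39, -3;
    2, -145, -180, 65, 1;
    1, 65, -180, -145, 2;
    -3, 39, 290, 65, -8]

def K2 : Matrix (Fin 4) (Fin 5) ℤ :=
    !![5, 530, 265, -350, -3;
    12, -530, -1205, -18, 12;
    -13, 18, 1205, 530, -13;
    2, 350, -265, -530, -6]

def K3 : Matrix (Fin 4) (Fin 5) ℤ :=
    !![-18, 329, 1190, 175, -13;
    8, -585, -720, 265, 7;
    7, 265, -720, -585, 8;
    -13, 175, 1190, 329, -18]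

theorem K0_eq : P2.submatrix (Fin.castSucc : Fin 4 → Fin 5) id = J + 2 • K0 := by decide +kernel

theorem K1_eq : B * ((2 : ℤ) ^ 0 • (J + 2 • K0)) = (2 : ℤ) ^ 3 • (J + 2 • K1) := by decide +kernel

theorem K2_eq : B * ((2 : ℤ) ^ 3 • (J + 2 • K1)) = (2 : ℤ) ^ 4 • (J + 2 • K2) := by decide +kernel

theorem K3_eq : B * ((2 : ℤ) ^ 4 • (J + 2 • K2)) = (2 : ℤ) ^ 7 • (J + 2 • K3) := by decide +kernel

theorem Krel : B * ((2 : ℤ) ^ 7 • (J + 2 • K3)) = (80 : ℤ) • ((2 : ℤ) ^ 4 • (J + 2 • K2)) + (-1024 : ℤ) • ((2 : ℤ) ^ 0 • (J + 2 • K0)) := by decide +kernel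

theorem W_even (z : ℤ) : W (2 * z) = M0 *ᵥ W z := by
  funext i
  fin_cases i
  · have h := T_even z
    have e : (2 * z - (((0 : ℕ)) : ℤ)) = 2 * z := by push_cast; ring
    change T 5 (2 * z - (((0 : ℕ)) : ℤ)) = _
    rw [e, h]
    simp [Matrix.mulVec, dotProduct, Fin.sum_univ_succ, M0, W, sub_sub]
    try ring_nf
  · have h := T_odd (z - 1)
    have e : (2 * z - (((1 : ℕ)) : ℤ)) = 2 * (z - 1) + 1 := by push_cast; ring
    change T 5 (2 * z - (((1 : ℕ)) : ℤ)) = _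
    rw [e, h]
    simp [Matrix.mulVec, dotProduct, Fin.sum_univ_succ, M0, W, sub_sub]
    try ring_nf
  · have h := T_even (z - 1)
    have e : (2 * z - (((2 : ℕ)) : ℤ)) = 2 * (z - 1) := by push_cast; ring
    change T 5 (2 * z - (((2 : ℕ)) : ℤ)) = _
    rw [e, h]
    simp [Matrix.mulVec, dotProduct, Fin.sum_univ_succ, M0, W, sub_sub]
    try ring_nf
  · have h := T_odd (z - 2)
    have e : (2 * z - (((3 : ℕ)) : ℤ)) = 2 * (z - 2) + 1 := by push_cast; ring
    change T 5 (2 * z - (((3 : ℕ)) : ℤ)) = _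
    rw [e, h]
    simp [Matrix.mulVec, dotProduct, Fin.sum_univ_succ, M0, W, sub_sub]
    try ring_nf
  · have h := T_even (z - 2)
    have e : (2 * z - (((4 : ℕ)) : ℤ)) = 2 * (z - 2) := by push_cast; ring
    change T 5 (2 * z - (((4 : ℕ)) : ℤ)) = _
    rw [e, h]
    simp [Matrix.mulVec, dotProduct, Fin.sum_univ_succ, M0, W, sub_sub]
    try ring_nf

theorem W_odd (z : ℤ) : W (2 * z + 1) = M1 *ᵥ W z := by
  funext i
  fin_cases i
  · have h := T_odd z
    have e : (2 * z + 1 - (((0 : ℕ)) : ℤ)) = 2 * z + 1 := by push_cast; ring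
    change T 5 (2 * z + 1 - (((0 : ℕ)) : ℤ)) = _
    rw [e, h]
    simp [Matrix.mulVec, dotProduct, Fin.sum_univ_succ, M1, W, sub_sub]
    try ring_nf
  · have h := T_even z
    have e : (2 * z + 1 - (((1 : ℕ)) : ℤ)) = 2 * z := by push_cast; ring
    change T 5 (2 * z + 1 - (((1 : ℕ)) : ℤ)) = _
    rw [e, h]
    simp [Matrix.mulVec, dotProduct, Fin.sum_univ_succ, M1, W, sub_sub]
    try ring_nf
  · have h := T_odd (z - 1)
    have e : (2 * z + 1 - (((2 : ℕ)) : ℤ)) = 2 * (z - 1) + 1 := by push_cast; ring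
    change T 5 (2 * z + 1 - (((2 : ℕ)) : ℤ)) = _
    rw [e, h]
    simp [Matrix.mulVec, dotProduct, Fin.sum_univ_succ, M1, W, sub_sub]
    try ring_nf
  · have h := T_even (z - 1)
    have e : (2 * z + 1 - (((3 : ℕ)) : ℤ)) = 2 * (z - 1) := by push_cast; ring
    change T 5 (2 * z + 1 - (((3 : ℕ)) : ℤ)) = _
    rw [e, h]
    simp [Matrix.mulVec, dotProduct, Fin.sum_univ_succ, M1, W, sub_sub]
    try ring_nf
  · have h := T_odd (z - 2)
    have e : (2 * z + 1 - (((4 : ℕ)) : ℤ)) = 2 * (z - 2) + 1 := by push_cast; ring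
    change T 5 (2 * z + 1 - (((4 : ℕ)) : ℤ)) = _
    rw [e, h]
    simp [Matrix.mulVec, dotProduct, Fin.sum_univ_succ, M1, W, sub_sub]
    try ring_nf

theorem parity (n : ℕ) : Odd (T 5 n + T 5 ((n : ℤ) - 4)) := by
  induction n using Nat.strong_induction_on with
  | _ n ih =>
    rcases Nat.eq_zero_or_pos n with rfl | hn
    · rw [T_neg 5 (z := (((0 : ℕ) : ℤ) - 4)) (by norm_num), add_zero]
      have : T 5 ((0 : ℕ) : ℤ) = 1 := T_zero 5
      rw [this]
      exact odd_one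
    · rcases Nat.even_or_odd' n with ⟨a, rfl | rfl⟩
      · have h := ih a (by omega)
        have e1 : T 5 ((2 * a : ℕ) : ℤ) = T 5 (2 * (a : ℤ)) := by push_cast; rfl
        have e2 : T 5 (((2 * a : ℕ) : ℤ) - 4) = T 5 (2 * ((a : ℤ) - 2)) := by
          congr 1; push_cast; ring
        rw [e1, e2, T_even, T_even]
        rw [Int.odd_iff] at h ⊢
        simp only [sub_sub]
        norm_num
        omega
      · have h := ih a (by omega)
        have e1 : T 5 ((2 * a + 1 : ℕ) : ℤ) = T 5 (2 * (a : ℤ) + 1) := by push_cast; rfl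
        have e2 : T 5 (((2 * a + 1 : ℕ) : ℤ) - 4) = T 5 (2 * ((a : ℤ) - 2) + 1) := by
          congr 1; push_cast; ring
        rw [e1, e2, T_odd, T_odd]
        rw [Int.odd_iff] at h ⊢
        simp only [sub_sub]
        norm_num
        omega

theorem JK_odd (K : Matrix (Fin 4) (Fin 5) ℤ) (n : ℕ) (i : Fin 4) :
    Odd (((J + 2 • K) *ᵥ W n) i) := by
  have h := parity n
  have e : ((J + 2 • K) *ᵥ W n) i = (T 5 n + T 5 ((n : ℤ) - 4)) + 2 * ((K *ᵥ W n) i) := by
    rw [Matrix.add_mulVec, Matrix.smul_mulVec]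
    have : (J *ᵥ W n) i = T 5 n + T 5 ((n : ℤ) - 4) := by
      fin_cases i <;> simp [Matrix.mulVec, dotProduct, Fin.sum_univ_succ, J, W]
    simp [this]
  rw [e]
  exact h.add_even (even_two_mul _)

/-- the vector of the `4` coefficients ending at `2^(v+2) (2n+1) - 1` -/
noncomputable def y (n v : ℕ) : Fin 4 → ℤ :=
  fun i => T 5 (2 ^ (v + 2) * (2 * (n : ℤ) + 1) - 1 - ((i : ℕ) : ℤ))

theorem y_succ (n v : ℕ) : y n (v + 1) = B *ᵥ y n v := by
  have e0 : (2 : ℤ) ^ (v + 1 + 2) = 2 * 2 ^ (v + 2) := by ring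
  obtain ⟨z, hz⟩ : ∃ z : ℤ, z = 2 ^ (v + 2) * (2 * (n : ℤ) + 1) - 1 := ⟨_, rfl⟩
  have e1 : 2 ^ (v + 1 + 2) * (2 * (n : ℤ) + 1) - 1 = 2 * z + 1 := by rw [hz, e0]; ring
  unfold y
  rw [e1, ← hz]
  funext i
  fin_cases i
  · have h := T_odd z
    have e : (2 * z + 1 - (((0 : ℕ)) : ℤ)) = 2 * z + 1 := by push_cast; ring
    change T 5 (2 * z + 1 - (((0 : ℕ)) : ℤ)) = _
    rw [e, h]
    simp [Matrix.mulVec, dotProduct, Fin.sum_univ_succ, B, sub_sub]
    try ring_nf
  · have h := T_even z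
    have e : (2 * z + 1 - (((1 : ℕ)) : ℤ)) = 2 * z := by push_cast; ring
    change T 5 (2 * z + 1 - (((1 : ℕ)) : ℤ)) = _
    rw [e, h]
    simp [Matrix.mulVec, dotProduct, Fin.sum_univ_succ, B, sub_sub]
    try ring_nf
  · have h := T_odd (z - 1)
    have e : (2 * z + 1 - (((2 : ℕ)) : ℤ)) = 2 * (z - 1) + 1 := by push_cast; ring
    change T 5 (2 * z + 1 - (((2 : ℕ)) : ℤ)) = _
    rw [e, h]
    simp [Matrix.mulVec, dotProduct, Fin.sum_univ_succ, B, sub_sub]
    try ring_nf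
  · have h := T_even (z - 1)
    have e : (2 * z + 1 - (((3 : ℕ)) : ℤ)) = 2 * (z - 1) := by push_cast; ring
    change T 5 (2 * z + 1 - (((3 : ℕ)) : ℤ)) = _
    rw [e, h]
    simp [Matrix.mulVec, dotProduct, Fin.sum_univ_succ, B, sub_sub]
    try ring_nf

theorem y_zero (n : ℕ) : y n 0 = (J + 2 • K0) *ᵥ W n := by
  rw [← K0_eq]
  have h1 : W (8 * (n : ℤ) + 3) = P2 *ᵥ W n := by
    have e : (8 * (n : ℤ) + 3) = 2 * (2 * (2 * (n : ℤ)) + 1) + 1 := by ring
    rw [e, W_odd, W_odd, W_even, Matrix.mulVec_mulVec, Matrix.mulVec_mulVec, Matrix.mul_assoc,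
      P1_eq, P2_eq]
  have h2 : ∀ i : Fin 4, y n 0 i = W (8 * (n : ℤ) + 3) i.castSucc := by
    intro i
    unfold y W
    congr 1
    simp only [zero_add, Fin.val_castSucc]
    ring
  funext i
  rw [h2, h1]
  rfl

theorem y_zero' (n : ℕ) : y n 0 = ((2 : ℤ) ^ 0 • (J + 2 • K0)) *ᵥ W n := by
  rw [y_zero, pow_zero, one_smul]

theorem y_1 (n : ℕ) : y n 1 = ((2 : ℤ) ^ 3 • (J + 2 • K1)) *ᵥ W n := by
  rw [y_succ, y_zero', Matrix.mulVec_mulVec, K1_eq]

theorem y_2 (n : ℕ) : y n 2 = ((2 : ℤ) ^ 4 • (J + 2 • K2)) *ᵥ W n := by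
  rw [y_succ, y_1, Matrix.mulVec_mulVec, K2_eq]

theorem y_3 (n : ℕ) : y n 3 = ((2 : ℤ) ^ 7 • (J + 2 • K3)) *ᵥ W n := by
  rw [y_succ, y_2, Matrix.mulVec_mulVec, K3_eq]

theorem y_4 (n : ℕ) : y n 4 = (80 : ℤ) • y n 2 + (-1024 : ℤ) • y n 0 := by
  rw [y_succ n 3, y_3, Matrix.mulVec_mulVec, Krel]
  rw [y_2, y_zero']
  simp only [Matrix.add_mulVec, Matrix.smul_mulVec]

theorem y_rec (n v : ℕ) : y n (v + 4) = (80 : ℤ) • y n (v + 2) + (-1024 : ℤ) • y n (v + 0) := by
  induction v with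
  | zero => simpa using y_4 n
  | succ v ih =>
    have e : v + 1 + 4 = (v + 4) + 1 := by omega
    rw [e, y_succ, ih]
    simp only [Matrix.mulVec_add, Matrix.mulVec_smul, ← y_succ]

theorem y_val (n : ℕ) (i : Fin 4) (v : ℕ) : P (4 * (v / 2) + 3 * (v % 2)) (y n v i) := by
  induction v using Nat.strong_induction_on with
  | _ v ih =>
    rcases Nat.lt_or_ge v 4 with hv | hv
    · interval_cases v
      · exact ⟨((J + 2 • K0) *ᵥ W n) i, JK_odd _ n i, by rw [y_zero', Matrix.smul_mulVec]; rfl⟩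
      · exact ⟨((J + 2 • K1) *ᵥ W n) i, JK_odd _ n i, by rw [y_1, Matrix.smul_mulVec]; rfl⟩
      · exact ⟨((J + 2 • K2) *ᵥ W n) i, JK_odd _ n i, by rw [y_2, Matrix.smul_mulVec]; rfl⟩
      · exact ⟨((J + 2 • K3) *ᵥ W n) i, JK_odd _ n i, by rw [y_3, Matrix.smul_mulVec]; rfl⟩
    · obtain ⟨u, rfl⟩ := Nat.exists_eq_add_of_le' hv
      obtain ⟨z2, hz2, e2⟩ := ih (u + 2) (by omega)
      obtain ⟨z0, hz0, e0⟩ := ih (u + 0) (by omega)
      have e : y n (u + 4) i = 80 * y n (u + 2) i + -1024 * y n (u + 0) i := by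
        rw [y_rec]
        simp [smul_eq_mul]
      have hm : (u + 4) % 2 = u % 2 := by omega
      have hd : (u + 4) / 2 = u / 2 + 2 := by omega
      refine ⟨5 * z2 + -4 * z0, ?_, ?_⟩
      · rw [Int.odd_iff] at *
        omega
      · rw [e, e2, e0, hm, hd]
        rw [show 4 * ((u + 2) / 2) + 3 * ((u + 2) % 2) = (4 * (u / 2) + 3 * (u % 2)) + 4 by omega, pow_add _ _ 4]
        rw [show 4 * (u / 2 + 2) + 3 * (u % 2) = (4 * (u / 2) + 3 * (u % 2)) + 8 by omega, pow_add _ _ 8]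
        simp only [add_zero]
        ring

theorem main (n j : ℕ) (hj : j < 4) :
    t 5 (4 * n + j) ≠ 0 ∧
    padicValInt 2 (t 5 (4 * n + j)) + 1 * (padicValNat 2 (n + 1) % 2) =
      4 * ((padicValNat 2 (n + 1) + 1) / 2) := by
  obtain ⟨v, a, ha, hn⟩ : ∃ v a : ℕ, v = padicValNat 2 (n + 1) ∧ n + 1 = 2 ^ v * (2 * a + 1) := by
    obtain ⟨v, b, hb, h⟩ := Nat.exists_eq_two_pow_mul_odd (n := n + 1) (by omega)
    obtain ⟨a, rfl⟩ := hb
    refine ⟨v, a, ?_, h⟩
    rw [h, padicValNat.mul (by positivity) (by omega), padicValNat.prime_pow,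
      padicValNat.eq_zero_of_not_dvd (by omega : ¬ 2 ∣ 2 * a + 1), add_zero]
  have h := (y_val a ⟨3 - j, by omega⟩ v).val
  have e : y a v ⟨3 - j, by omega⟩ = t 5 (4 * n + j) := by
    rw [← T_natCast]
    unfold y
    congr 1
    have h1 : (2 : ℤ) ^ (v + 2) * (2 * (a : ℤ) + 1) = 4 * ((n : ℤ) + 1) := by
      have : ((n : ℤ) + 1) = 2 ^ v * (2 * a + 1) := by exact_mod_cast hn
      rw [this, pow_add]
      ring
    rw [h1]
    push_cast [Nat.cast_sub (by omega : j ≤ 3)]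
    ring
  rw [e] at h
  refine ⟨h.1, ?_⟩
  rw [h.2, ← ha]
  omega

end Five

/-! ### The case `m = 9` -/

namespace Nine

theorem T_even (z : ℤ) : T 9 (2 * z) = T 9 z + 36 * T 9 (z - 1) + 126 * T 9 (z - 2) + 84 * T 9 (z - 3) + 9 * T 9 (z - 4) := by
  rw [T_rec]
  simp only [sum_range_succ, range_zero, sum_empty]
  rw [if_pos (by omega : (2 * z - ((0 : ℕ) : ℤ)) % 2 = 0), show (2 * z - ((0 : ℕ) : ℤ)) / 2 = z by omega]
  rw [if_neg (by omega : ¬ (2 * z - ((1 : ℕ) : ℤ)) % 2 = 0)]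
  rw [if_pos (by omega : (2 * z - ((2 : ℕ) : ℤ)) % 2 = 0), show (2 * z - ((2 : ℕ) : ℤ)) / 2 = z - 1 by omega]
  rw [if_neg (by omega : ¬ (2 * z - ((3 : ℕ) : ℤ)) % 2 = 0)]
  rw [if_pos (by omega : (2 * z - ((4 : ℕ) : ℤ)) % 2 = 0), show (2 * z - ((4 : ℕ) : ℤ)) / 2 = z - 2 by omega]
  rw [if_neg (by omega : ¬ (2 * z - ((5 : ℕ) : ℤ)) % 2 = 0)]
  rw [if_pos (by omega : (2 * z - ((6 : ℕ) : ℤ)) % 2 = 0), show (2 * z - ((6 : ℕ) : ℤ)) / 2 = z - 3 by omega]
  rw [if_neg (by omega : ¬ (2 * z - ((7 : ℕ) : ℤ)) % 2 = 0)]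
  rw [if_pos (by omega : (2 * z - ((8 : ℕ) : ℤ)) % 2 = 0), show (2 * z - ((8 : ℕ) : ℤ)) / 2 = z - 4 by omega]
  rw [if_neg (by omega : ¬ (2 * z - ((9 : ℕ) : ℤ)) % 2 = 0)]
  norm_num [Nat.choose]

theorem T_odd (z : ℤ) : T 9 (2 * z + 1) = -(9 * T 9 z + 84 * T 9 (z - 1) + 126 * T 9 (z - 2) + 36 * T 9 (z - 3) + T 9 (z - 4)) := by
  rw [T_rec]
  simp only [sum_range_succ, range_zero, sum_empty]
  rw [if_neg (by omega : ¬ (2 * z + 1 - ((0 : ℕ) : ℤ)) % 2 = 0)]
  rw [if_pos (by omega : (2 * z + 1 - ((1 : ℕ) : ℤ)) % 2 = 0), show (2 * z + 1 - ((1 : ℕ) : ℤ)) / 2 = z by omega]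
  rw [if_neg (by omega : ¬ (2 * z + 1 - ((2 : ℕ) : ℤ)) % 2 = 0)]
  rw [if_pos (by omega : (2 * z + 1 - ((3 : ℕ) : ℤ)) % 2 = 0), show (2 * z + 1 - ((3 : ℕ) : ℤ)) / 2 = z - 1 by omega]
  rw [if_neg (by omega : ¬ (2 * z + 1 - ((4 : ℕ) : ℤ)) % 2 = 0)]
  rw [if_pos (by omega : (2 * z + 1 - ((5 : ℕ) : ℤ)) % 2 = 0), show (2 * z + 1 - ((5 : ℕ) : ℤ)) / 2 = z - 2 by omega]
  rw [if_neg (by omega : ¬ (2 * z + 1 - ((6 : ℕ) : ℤ)) % 2 = 0)]
  rw [if_pos (by omega : (2 * z + 1 - ((7 : ℕ) : ℤ)) % 2 = 0), show (2 * z + 1 - ((7 : ℕ) : ℤ)) / 2 = z - 3 by omega]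
  rw [if_neg (by omega : ¬ (2 * z + 1 - ((8 : ℕ) : ℤ)) % 2 = 0)]
  rw [if_pos (by omega : (2 * z + 1 - ((9 : ℕ) : ℤ)) % 2 = 0), show (2 * z + 1 - ((9 : ℕ) : ℤ)) / 2 = z - 4 by omega]
  norm_num [Nat.choose]
  ring

/-- the window of `9` coefficients ending at `z` -/
noncomputable def W (z : ℤ) : Fin 9 → ℤ := fun i => T 9 (z - ((i : ℕ) : ℤ))

/-- `W (2z) = M0 (W z)` -/
def M0 : Matrix (Fin 9) (Fin 9) ℤ :=
    !![1, 36, 126, 84, 9, 0, 0, 0, 0;
    0, -9, -84, -126, -36, -1, 0, 0, 0;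
    0, 1, 36, 126, 84, 9, 0, 0, 0;
    0, 0, -9, -84, -126, -36, -1, 0, 0;
    0, 0, 1, 36, 126, 84, 9, 0, 0;
    0, 0, 0, -9, -84, -126, -36, -1, 0;
    0, 0, 0, 1, 36, 126, 84, 9, 0;
    0, 0, 0, 0, -9, -84, -126, -36, -1;
    0, 0, 0, 0, 1, 36, 126, 84, 9]

/-- `W (2z+1) = M1 (W z)` -/
def M1 : Matrix (Fin 9) (Fin 9) ℤ :=
    !![-9, -84, -126, -36, -1, 0, 0, 0, 0;
    1, 36, 126, 84, 9, 0, 0, 0, 0;
    0, -9, -84, -126, -36, -1, 0, 0, 0;
    0, 1, 36, 126, 84, 9, 0, 0, 0;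
    0, 0, -9, -84, -126, -36, -1, 0, 0;
    0, 0, 1, 36, 126, 84, 9, 0, 0;
    0, 0, 0, -9, -84, -126, -36, -1, 0;
    0, 0, 0, 1, 36, 126, 84, 9, 0;
    0, 0, 0, 0, -9, -84, -126, -36, -1]

/-- the upper left block of `M1` -/
def B : Matrix (Fin 8) (Fin 8) ℤ :=
    !![-9, -84, -126, -36, -1, 0, 0, 0;
    1, 36, 126, 84, 9, 0, 0, 0;
    0, -9, -84, -126, -36, -1, 0, 0;
    0, 1, 36, 126, 84, 9, 0, 0;
    0, 0, -9, -84, -126, -36, -1, 0;
    0, 0, 1, 36, 126, 84, 9, 0;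
    0, 0, 0, -9, -84, -126, -36, -1;
    0, 0, 0, 1, 36, 126, 84, 9]

def P1 : Matrix (Fin 9) (Fin 9) ℤ :=
    !![-9, 306, 1709, -3060, -3231, 162, 27, 0, 0;
    1, -162, 891, 4692, -153, -1170, -3, 0, 0;
    0, -3, -1170, -153, 4692, 891, -162, 1, 0;
    0, 27, 162, -3231, -3060, 1709, 306, -9, 0;
    0, -9, 306, 1709, -3060, -3231, 162, 27, 0;
    0, 1, -162, 891, 4692, -153, -1170, -3, 0;
    0, 0, -3, -1170, -153, 4692, 891, -162, 1;
    0, 0, 27, 162, -3231, -3060, 1709, 306, -9;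
    0, 0, -9, 306, 1709, -3060, -3231, 162, 27]

theorem P1_eq : M1 * M0 = P1 := by decide +kernel

def P2 : Matrix (Fin 9) (Fin 9) ℤ :=
    !![-3, 10269, 51057, -232703, -436041, -73737, 9243, 171, 0;
    27, -3717, -97273, -109449, 297873, 184785, 6669, -387, 0;
    -9, -1369, 58995, 315315, 98277, -163179, -29583, 81, 0;
    1, 2385, 3429, -256347, -431613, -26541, 35799, 1143, 0;
    0, -1143, -35799, 26541, 431613, 256347, -3429, -2385, -1;
    0, -81, 29583, 163179, -98277, -315315, -58995, 1369, 9;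
    0, 387, -6669, -184785, -297873, 109449, 97273, 3717, -27;
    0, -171, -9243, 73737, 436041, 232703, -51057, -10269, 3;
    0, -3, 10269, 51057, -232703, -436041, -73737, 9243, 171]

theorem P2_eq : M1 * P1 = P2 := by decide +kernel

def P3 : Matrix (Fin 9) (Fin 9) ℤ :=
    !![-1143, 307584, 190404, -19239696, -18373410, 6401376, 1798740, -18000, 1;
    -81, -105984, 3948444, 14262544, -9700686, -13904352, -501876, 70992, -9;
    387, -110832, -3252996, 5679648, 28007322, 6474960, -1903284, -62848, 27;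
    -171, 150768, -282268, -17359776, -15176394, 9661488, 2633364, -41472, -3;
    -3, -41472, 2633364, 9661488, -15176394, -17359776, -282268, 150768, -171;
    27, -62848, -1903284, 6474960, 28007322, 5679648, -3252996, -110832, 387;
    -9, 70992, -501876, -13904352, -9700686, 14262544, 3948444, -105984, -81;
    1, -18000, 1798740, 6401376, -18373410, -19239696, 190404, 307584, -1143;
    0, -25512, -1000008, 6631416, 26437976, 2447496, -5358168, -201432, 2376]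

theorem P3_eq : M1 * P2 = P3 := by decide +kernel

/-- rows `(1, 0, …, 0, 1)` -/
def J : Matrix (Fin 8) (Fin 9) ℤ :=
    !![1, 0, 0, 0, 0, 0, 0, 0, 1;
    1, 0, 0, 0, 0, 0, 0, 0, 1;
    1, 0, 0, 0, 0, 0, 0, 0, 1;
    1, 0, 0, 0, 0, 0, 0, 0, 1;
    1, 0, 0, 0, 0, 0, 0, 0, 1;
    1, 0, 0, 0, 0, 0, 0, 0, 1;
    1, 0, 0, 0, 0, 0, 0, 0, 1;
    1, 0, 0, 0, 0, 0, 0, 0, 1]

def K0 : Matrix (Fin 8) (Fin 9) ℤ :=
    !![-572, 153792, 95202, -9619848, -9186705, 3200688, 899370, -9000, 0;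
    -41, -52992, 1974222, 7131272, -4850343, -6952176, -250938, 35496, -5;
    193, -55416, -1626498, 2839824, 14003661, 3237480, -951642, -31424, 13;
    -86, 75384, -141134, -8679888, -7588197, 4830744, 1316682, -20736, -2;
    -2, -20736, 1316682, 4830744, -7588197, -8679888, -141134, 75384, -86;
    13, -31424, -951642, 3237480, 14003661, 2839824, -1626498, -55416, 193;
    -5, 35496, -250938, -6952176, -4850343, 7131272, 1974222, -52992, -41;
    0, -9000, 899370, 3200688, -9186705, -9619848, 95202, 153792, -572]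

def K1 : Matrix (Fin 8) (Fin 9) ℤ :=
    !![-1595, 919566, 5251428, -70327602, -124198605, -2246598, 10703992, 216234, -149;
    1894, -323838, -16722084, -10088766, 109369989, 61063542, -2338776, -469242, 80;
    -635, -448574, 11273976, 76724370, 10328727, -63552042, -9624780, 284310, 247;
    -482, 678222, 3459240, -68672642, -121025871, 1839834, 13112268, 265626, -644;
    643, -265626, -13112268, -1839834, 121025871, 68672642, -3459240, -678222, 481;
    -248, -284310, 9624780, 63552042, -10328727, -76724370, -11273976, 448574, 634;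
    -81, 469242, 2338776, -61063542, -109369989, 10088766, 16722084, 323838, -1895;
    148, -216234, -10703992, 2246598, 124198605, 70327602, -5251428, -919566, 1594]

def K2 : Matrix (Fin 8) (Fin 9) ℤ :=
    !![-12038, 12824064, -43637286, -1428202728, -1283701437, 690883120, 211065282, -1809288, -3482;
    -11999, -3169728, 249085782, 862171752, -990599931, -1259729136, -53979218, 8838792, -3947;
    18499, -8753592, -192490650, 575346672, 2262678537, 540372456, -171702162, -7290080, 10399;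
    -7448, 11028024, -47450550, -1370835504, -1173710241, 770747928, 227818242, -2424672, -6484;
    -6484, -2424672, 227818242, 770747928, -1173710241, -1370835504, -47450550, 11028024, -7448;
    10399, -7290080, -171702162, 540372456, 2262678537, 575346672, -192490650, -8753592, 18499;
    -3947, 8838792, -53979218, -1259729136, -990599931, 862171752, 249085782, -3169728, -11999;
    -3482, -1809288, 211065282, 690883120, -1283701437, -1428202728, -43637286, 12824064, -12038]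

def K3 : Matrix (Fin 8) (Fin 9) ℤ :=
    !![-117517, 107401122, 650469168, -10435369134, -18363313701, 642034998, 2014391628, 33579414, -88331;
    150376, -37463346, -2158231632, -763723746, 17374643037, 9479108762, -582122700, -88322886, 69142;
    -35573, -66390434, 1484557164, 11043663678, 841097847, -10299153942, -1486949184, 56258874, 28561;
    -91928, 100243602, 616508244, -10193055438, -18206152047, 666981990, 2093947424, 36057366, -113198;
    113197, -36057366, -2093947424, -666981990, 18206152047, 10193055438, -616508244, -100243602, 91927;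
    -28562, -56258874, 1486949184, 10299153942, -841097847, -11043663678, -1484557164, 66390434, 35572;
    -69143, 88322886, 582122700, -9479108762, -17374643037, 763723746, 2158231632, 37463346, -150377;
    88330, -33579414, -2014391628, -642034998, 18363313701, 10435369134, -650469168, -107401122, 117516]

def K4 : Matrix (Fin 8) (Fin 9) ℤ :=
    !![-973913, 1743198336, -7929329362, -216453382200, -190740799719, 115366384656, 35839695078, -292383000, -1157141;
    -1472308, -377631936, 35737374690, 122838176184, -163089809793, -202009865040, -8988653334, 1517299992, -670424;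
    2292754, -1340600808, -27265899438, 94310736912, 353092693899, 84967722360, -27503921430, -1232922080, 1974118;
    -865391, 1667006568, -8385793986, -212712729552, -181143525267, 119893245320, 36144343782, -335680992, -1280867;
    -1280867, -335680992, 36144343782, 119893245320, -181143525267, -212712729552, -8385793986, 1667006568, -865391;
    1974118, -1232922080, -27503921430, 84967722360, 353092693899, 94310736912, -27265899438, -1340600808, 2292754;
    -670424, 1517299992, -8988653334, -202009865040, -163089809793, 122838176184, 35737374690, -377631936, -1472308;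
    -1157141, -292383000, 35839695078, 115366384656, -190740799719, -216453382200, -7929329362, 1743198336, -973913]

def K5 : Matrix (Fin 8) (Fin 9) ℤ :=
    !![-15501638, 15658930494, 96334007400, -1589464274002, -2796394722039, 140144260266, 325646642796, 5117992362, -16879064;
    18836185, -5469978798, -316999346312, -87494532894, 2697669703647, 1463195287686, -99074149164, -14276488698, 13508155;
    -3270542, -10089529310, 218952096012, 1671629235426, 100022549997, -1607800159530, -229225694184, 9191740518, 3807292;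
    -14724759, 15263758062, 98268067188, -1556004638802, -2789257361301, 118038050010, 325657212744, 5349930570, -17881169;
    17881168, -5349930570, -325657212744, -118038050010, 2789257361301, 1556004638802, -98268067188, -15263758062, 14724758;
    -3807293, -9191740518, 229225694184, 1607800159530, -100022549997, -1671629235426, -218952096012, 10089529310, 3270541;
    -13508156, 14276488698, 99074149164, -1463195287686, -2697669703647, 87494532894, 316999346312, 5469978798, -18836186;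
    16879063, -5117992362, -325646642796, -140144260266, 2796394722039, 1589464274002, -96334007400, -15658930494, 15501637]

def K6 : Matrix (Fin 8) (Fin 9) ℤ :=
    !![-129606620, 261420794496, -1259754569982, -33209089846920, -29103884065521, 18151935788400, 5662113655050, -45582482088, -208373760;
    -206359097, -54633674304, 5398981091694, 18529821024008, -25567936547175, -31462101883440, -1413166732122, 240336012456, -105090485;
    330151153, -206173500888, -4106581112322, 14767187287536, 54613065883629, 13167280937160, -4282395159258, -194575824032, 319569853;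
    -121617590, 255605162328, -1336280511758, -32852605327920, -27937632655269, 18528727596600, 5614130789514, -50158122912, -209035490;
    -209035490, -50158122912, 5614130789514, 18528727596600, -27937632655269, -32852605327920, -1336280511758, 255605162328, -121617590;
    319569853, -194575824032, -4282395159258, 13167280937160, 54613065883629, 14767187287536, -4106581112322, -206173500888, 330151153;
    -105090485, 240336012456, -1413166732122, -31462101883440, -25567936547175, 18529821024008, 5398981091694, -54633674304, -206359097;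
    -208373760, -45582482088, 5662113655050, 18151935788400, -29103884065521, -33209089846920, -1259754569982, 261420794496, -129606620]

def K7 : Matrix (Fin 8) (Fin 9) ℤ :=
    !![-2313894119, 2382834360258, 14718070901736, -244265461426926, -429739033317489, 23273768735190, 50819543094820, 786082297878, -2739492725;
    2742914290, -832980257874, -48255755162952, -12291279241122, 416687108079177, 225666667028730, -15654152131812, -2227859465670, 2202578864;
    -418242623, -1549463132642, 33363376853508, 256501834441758, 14237164871211, -248698219303062, -35341013247048, 1438207031322, 561062551;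
    -2290948286, 2345613250770, 15279518306556, -239295132674222, -429360353673795, 18808190883558, 50324286751848, 816369373494, -2772945572;
    2772945571, -816369373494, -50324286751848, -18808190883558, 429360353673795, 239295132674222, -15279518306556, -2345613250770, 2290948285;
    -561062552, -1438207031322, 35341013247048, 248698219303062, -14237164871211, -256501834441758, -33363376853508, 1549463132642, 418242622;
    -2202578865, 2227859465670, 15654152131812, -225666667028730, -416687108079177, 12291279241122, 48255755162952, 832980257874, -2742914291;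
    2739492724, -786082297878, -50819543094820, -23273768735190, 429739033317489, 244265461426926, -14718070901736, -2382834360258, 2313894118]

theorem K0_eq : P3.submatrix (Fin.castSucc : Fin 8 → Fin 9) id = J + 2 • K0 := by decide +kernel

theorem K1_eq : B * ((2 : ℤ) ^ 0 • (J + 2 • K0)) = (2 : ℤ) ^ 3 • (J + 2 • K1) := by decide +kernel

theorem K2_eq : B * ((2 : ℤ) ^ 3 • (J + 2 • K1)) = (2 : ℤ) ^ 5 • (J + 2 • K2) := by decide +kernel

theorem K3_eq : B * ((2 : ℤ) ^ 5 • (J + 2 • K2)) = (2 : ℤ) ^ 8 • (J + 2 • K3) := by decide +kernel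

theorem K4_eq : B * ((2 : ℤ) ^ 8 • (J + 2 • K3)) = (2 : ℤ) ^ 10 • (J + 2 • K4) := by decide +kernel

theorem K5_eq : B * ((2 : ℤ) ^ 10 • (J + 2 • K4)) = (2 : ℤ) ^ 13 • (J + 2 • K5) := by decide +kernel

theorem K6_eq : B * ((2 : ℤ) ^ 13 • (J + 2 • K5)) = (2 : ℤ) ^ 15 • (J + 2 • K6) := by decide +kernel

theorem K7_eq : B * ((2 : ℤ) ^ 15 • (J + 2 • K6)) = (2 : ℤ) ^ 18 • (J + 2 • K7) := by decide +kernel

theorem Krel : B * ((2 : ℤ) ^ 18 • (J + 2 • K7)) = (6560 : ℤ) • ((2 : ℤ) ^ 15 • (J + 2 • K6)) + (-8472576 : ℤ) • ((2 : ℤ) ^ 10 • (J + 2 • K4)) + (2235564032 : ℤ) • ((2 : ℤ) ^ 5 • (J + 2 • K2)) + (-68719476736 : ℤ) • ((2 : ℤ) ^ 0 • (J + 2 • K0)) := by decide +kernel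

theorem W_even (z : ℤ) : W (2 * z) = M0 *ᵥ W z := by
  funext i
  fin_cases i
  · have h := T_even z
    have e : (2 * z - (((0 : ℕ)) : ℤ)) = 2 * z := by push_cast; ring
    change T 9 (2 * z - (((0 : ℕ)) : ℤ)) = _
    rw [e, h]
    simp [Matrix.mulVec, dotProduct, Fin.sum_univ_succ, M0, W, sub_sub]
    try ring_nf
  · have h := T_odd (z - 1)
    have e : (2 * z - (((1 : ℕ)) : ℤ)) = 2 * (z - 1) + 1 := by push_cast; ring
    change T 9 (2 * z - (((1 : ℕ)) : ℤ)) = _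
    rw [e, h]
    simp [Matrix.mulVec, dotProduct, Fin.sum_univ_succ, M0, W, sub_sub]
    try ring_nf
  · have h := T_even (z - 1)
    have e : (2 * z - (((2 : ℕ)) : ℤ)) = 2 * (z - 1) := by push_cast; ring
    change T 9 (2 * z - (((2 : ℕ)) : ℤ)) = _
    rw [e, h]
    simp [Matrix.mulVec, dotProduct, Fin.sum_univ_succ, M0, W, sub_sub]
    try ring_nf
  · have h := T_odd (z - 2)
    have e : (2 * z - (((3 : ℕ)) : ℤ)) = 2 * (z - 2) + 1 := by push_cast; ring
    change T 9 (2 * z - (((3 : ℕ)) : ℤ)) = _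
    rw [e, h]
    simp [Matrix.mulVec, dotProduct, Fin.sum_univ_succ, M0, W, sub_sub]
    try ring_nf
  · have h := T_even (z - 2)
    have e : (2 * z - (((4 : ℕ)) : ℤ)) = 2 * (z - 2) := by push_cast; ring
    change T 9 (2 * z - (((4 : ℕ)) : ℤ)) = _
    rw [e, h]
    simp [Matrix.mulVec, dotProduct, Fin.sum_univ_succ, M0, W, sub_sub]
    try ring_nf
  · have h := T_odd (z - 3)
    have e : (2 * z - (((5 : ℕ)) : ℤ)) = 2 * (z - 3) + 1 := by push_cast; ring
    change T 9 (2 * z - (((5 : ℕ)) : ℤ)) = _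
    rw [e, h]
    simp [Matrix.mulVec, dotProduct, Fin.sum_univ_succ, M0, W, sub_sub]
    try ring_nf
  · have h := T_even (z - 3)
    have e : (2 * z - (((6 : ℕ)) : ℤ)) = 2 * (z - 3) := by push_cast; ring
    change T 9 (2 * z - (((6 : ℕ)) : ℤ)) = _
    rw [e, h]
    simp [Matrix.mulVec, dotProduct, Fin.sum_univ_succ, M0, W, sub_sub]
    try ring_nf
  · have h := T_odd (z - 4)
    have e : (2 * z - (((7 : ℕ)) : ℤ)) = 2 * (z - 4) + 1 := by push_cast; ring
    change T 9 (2 * z - (((7 : ℕ)) : ℤ)) = _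
    rw [e, h]
    simp [Matrix.mulVec, dotProduct, Fin.sum_univ_succ, M0, W, sub_sub]
    try ring_nf
  · have h := T_even (z - 4)
    have e : (2 * z - (((8 : ℕ)) : ℤ)) = 2 * (z - 4) := by push_cast; ring
    change T 9 (2 * z - (((8 : ℕ)) : ℤ)) = _
    rw [e, h]
    simp [Matrix.mulVec, dotProduct, Fin.sum_univ_succ, M0, W, sub_sub]
    try ring_nf

theorem W_odd (z : ℤ) : W (2 * z + 1) = M1 *ᵥ W z := by
  funext i
  fin_cases i
  · have h := T_odd z
    have e : (2 * z + 1 - (((0 : ℕ)) : ℤ)) = 2 * z + 1 := by push_cast; ring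
    change T 9 (2 * z + 1 - (((0 : ℕ)) : ℤ)) = _
    rw [e, h]
    simp [Matrix.mulVec, dotProduct, Fin.sum_univ_succ, M1, W, sub_sub]
    try ring_nf
  · have h := T_even z
    have e : (2 * z + 1 - (((1 : ℕ)) : ℤ)) = 2 * z := by push_cast; ring
    change T 9 (2 * z + 1 - (((1 : ℕ)) : ℤ)) = _
    rw [e, h]
    simp [Matrix.mulVec, dotProduct, Fin.sum_univ_succ, M1, W, sub_sub]
    try ring_nf
  · have h := T_odd (z - 1)
    have e : (2 * z + 1 - (((2 : ℕ)) : ℤ)) = 2 * (z - 1) + 1 := by push_cast; ring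
    change T 9 (2 * z + 1 - (((2 : ℕ)) : ℤ)) = _
    rw [e, h]
    simp [Matrix.mulVec, dotProduct, Fin.sum_univ_succ, M1, W, sub_sub]
    try ring_nf
  · have h := T_even (z - 1)
    have e : (2 * z + 1 - (((3 : ℕ)) : ℤ)) = 2 * (z - 1) := by push_cast; ring
    change T 9 (2 * z + 1 - (((3 : ℕ)) : ℤ)) = _
    rw [e, h]
    simp [Matrix.mulVec, dotProduct, Fin.sum_univ_succ, M1, W, sub_sub]
    try ring_nf
  · have h := T_odd (z - 2)
    have e : (2 * z + 1 - (((4 : ℕ)) : ℤ)) = 2 * (z - 2) + 1 := by push_cast; ring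
    change T 9 (2 * z + 1 - (((4 : ℕ)) : ℤ)) = _
    rw [e, h]
    simp [Matrix.mulVec, dotProduct, Fin.sum_univ_succ, M1, W, sub_sub]
    try ring_nf
  · have h := T_even (z - 2)
    have e : (2 * z + 1 - (((5 : ℕ)) : ℤ)) = 2 * (z - 2) := by push_cast; ring
    change T 9 (2 * z + 1 - (((5 : ℕ)) : ℤ)) = _
    rw [e, h]
    simp [Matrix.mulVec, dotProduct, Fin.sum_univ_succ, M1, W, sub_sub]
    try ring_nf
  · have h := T_odd (z - 3)
    have e : (2 * z + 1 - (((6 : ℕ)) : ℤ)) = 2 * (z - 3) + 1 := by push_cast; ring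
    change T 9 (2 * z + 1 - (((6 : ℕ)) : ℤ)) = _
    rw [e, h]
    simp [Matrix.mulVec, dotProduct, Fin.sum_univ_succ, M1, W, sub_sub]
    try ring_nf
  · have h := T_even (z - 3)
    have e : (2 * z + 1 - (((7 : ℕ)) : ℤ)) = 2 * (z - 3) := by push_cast; ring
    change T 9 (2 * z + 1 - (((7 : ℕ)) : ℤ)) = _
    rw [e, h]
    simp [Matrix.mulVec, dotProduct, Fin.sum_univ_succ, M1, W, sub_sub]
    try ring_nf
  · have h := T_odd (z - 4)
    have e : (2 * z + 1 - (((8 : ℕ)) : ℤ)) = 2 * (z - 4) + 1 := by push_cast; ring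
    change T 9 (2 * z + 1 - (((8 : ℕ)) : ℤ)) = _
    rw [e, h]
    simp [Matrix.mulVec, dotProduct, Fin.sum_univ_succ, M1, W, sub_sub]
    try ring_nf

theorem parity (n : ℕ) : Odd (T 9 n + T 9 ((n : ℤ) - 8)) := by
  induction n using Nat.strong_induction_on with
  | _ n ih =>
    rcases Nat.eq_zero_or_pos n with rfl | hn
    · rw [T_neg 9 (z := (((0 : ℕ) : ℤ) - 8)) (by norm_num), add_zero]
      have : T 9 ((0 : ℕ) : ℤ) = 1 := T_zero 9
      rw [this]
      exact odd_one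
    · rcases Nat.even_or_odd' n with ⟨a, rfl | rfl⟩
      · have h := ih a (by omega)
        have e1 : T 9 ((2 * a : ℕ) : ℤ) = T 9 (2 * (a : ℤ)) := by push_cast; rfl
        have e2 : T 9 (((2 * a : ℕ) : ℤ) - 8) = T 9 (2 * ((a : ℤ) - 4)) := by
          congr 1; push_cast; ring
        rw [e1, e2, T_even, T_even]
        rw [Int.odd_iff] at h ⊢
        simp only [sub_sub]
        norm_num
        omega
      · have h := ih a (by omega)
        have e1 : T 9 ((2 * a + 1 : ℕ) : ℤ) = T 9 (2 * (a : ℤ) + 1) := by push_cast; rfl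
        have e2 : T 9 (((2 * a + 1 : ℕ) : ℤ) - 8) = T 9 (2 * ((a : ℤ) - 4) + 1) := by
          congr 1; push_cast; ring
        rw [e1, e2, T_odd, T_odd]
        rw [Int.odd_iff] at h ⊢
        simp only [sub_sub]
        norm_num
        omega

theorem JK_odd (K : Matrix (Fin 8) (Fin 9) ℤ) (n : ℕ) (i : Fin 8) :
    Odd (((J + 2 • K) *ᵥ W n) i) := by
  have h := parity n
  have e : ((J + 2 • K) *ᵥ W n) i = (T 9 n + T 9 ((n : ℤ) - 8)) + 2 * ((K *ᵥ W n) i) := by
    rw [Matrix.add_mulVec, Matrix.smul_mulVec]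
    have : (J *ᵥ W n) i = T 9 n + T 9 ((n : ℤ) - 8) := by
      fin_cases i <;> simp [Matrix.mulVec, dotProduct, Fin.sum_univ_succ, J, W]
    simp [this]
  rw [e]
  exact h.add_even (even_two_mul _)

/-- the vector of the `8` coefficients ending at `2^(v+3) (2n+1) - 1` -/
noncomputable def y (n v : ℕ) : Fin 8 → ℤ :=
  fun i => T 9 (2 ^ (v + 3) * (2 * (n : ℤ) + 1) - 1 - ((i : ℕ) : ℤ))

theorem y_succ (n v : ℕ) : y n (v + 1) = B *ᵥ y n v := by
  have e0 : (2 : ℤ) ^ (v + 1 + 3) = 2 * 2 ^ (v + 3) := by ring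
  obtain ⟨z, hz⟩ : ∃ z : ℤ, z = 2 ^ (v + 3) * (2 * (n : ℤ) + 1) - 1 := ⟨_, rfl⟩
  have e1 : 2 ^ (v + 1 + 3) * (2 * (n : ℤ) + 1) - 1 = 2 * z + 1 := by rw [hz, e0]; ring
  unfold y
  rw [e1, ← hz]
  funext i
  fin_cases i
  · have h := T_odd z
    have e : (2 * z + 1 - (((0 : ℕ)) : ℤ)) = 2 * z + 1 := by push_cast; ring
    change T 9 (2 * z + 1 - (((0 : ℕ)) : ℤ)) = _
    rw [e, h]
    simp [Matrix.mulVec, dotProduct, Fin.sum_univ_succ, B, sub_sub]
    try ring_nf
  · have h := T_even z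
    have e : (2 * z + 1 - (((1 : ℕ)) : ℤ)) = 2 * z := by push_cast; ring
    change T 9 (2 * z + 1 - (((1 : ℕ)) : ℤ)) = _
    rw [e, h]
    simp [Matrix.mulVec, dotProduct, Fin.sum_univ_succ, B, sub_sub]
    try ring_nf
  · have h := T_odd (z - 1)
    have e : (2 * z + 1 - (((2 : ℕ)) : ℤ)) = 2 * (z - 1) + 1 := by push_cast; ring
    change T 9 (2 * z + 1 - (((2 : ℕ)) : ℤ)) = _
    rw [e, h]
    simp [Matrix.mulVec, dotProduct, Fin.sum_univ_succ, B, sub_sub]
    try ring_nf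
  · have h := T_even (z - 1)
    have e : (2 * z + 1 - (((3 : ℕ)) : ℤ)) = 2 * (z - 1) := by push_cast; ring
    change T 9 (2 * z + 1 - (((3 : ℕ)) : ℤ)) = _
    rw [e, h]
    simp [Matrix.mulVec, dotProduct, Fin.sum_univ_succ, B, sub_sub]
    try ring_nf
  · have h := T_odd (z - 2)
    have e : (2 * z + 1 - (((4 : ℕ)) : ℤ)) = 2 * (z - 2) + 1 := by push_cast; ring
    change T 9 (2 * z + 1 - (((4 : ℕ)) : ℤ)) = _
    rw [e, h]
    simp [Matrix.mulVec, dotProduct, Fin.sum_univ_succ, B, sub_sub]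
    try ring_nf
  · have h := T_even (z - 2)
    have e : (2 * z + 1 - (((5 : ℕ)) : ℤ)) = 2 * (z - 2) := by push_cast; ring
    change T 9 (2 * z + 1 - (((5 : ℕ)) : ℤ)) = _
    rw [e, h]
    simp [Matrix.mulVec, dotProduct, Fin.sum_univ_succ, B, sub_sub]
    try ring_nf
  · have h := T_odd (z - 3)
    have e : (2 * z + 1 - (((6 : ℕ)) : ℤ)) = 2 * (z - 3) + 1 := by push_cast; ring
    change T 9 (2 * z + 1 - (((6 : ℕ)) : ℤ)) = _
    rw [e, h]
    simp [Matrix.mulVec, dotProduct, Fin.sum_univ_succ, B, sub_sub]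
    try ring_nf
  · have h := T_even (z - 3)
    have e : (2 * z + 1 - (((7 : ℕ)) : ℤ)) = 2 * (z - 3) := by push_cast; ring
    change T 9 (2 * z + 1 - (((7 : ℕ)) : ℤ)) = _
    rw [e, h]
    simp [Matrix.mulVec, dotProduct, Fin.sum_univ_succ, B, sub_sub]
    try ring_nf

theorem y_zero (n : ℕ) : y n 0 = (J + 2 • K0) *ᵥ W n := by
  rw [← K0_eq]
  have h1 : W (16 * (n : ℤ) + 7) = P3 *ᵥ W n := by
    have e : (16 * (n : ℤ) + 7) = 2 * (2 * (2 * (2 * (n : ℤ)) + 1) + 1) + 1 := by ring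
    rw [e, W_odd, W_odd, W_odd, W_even, Matrix.mulVec_mulVec, Matrix.mulVec_mulVec,
      Matrix.mulVec_mulVec, Matrix.mul_assoc, Matrix.mul_assoc, P1_eq, P2_eq, P3_eq]
  have h2 : ∀ i : Fin 8, y n 0 i = W (16 * (n : ℤ) + 7) i.castSucc := by
    intro i
    unfold y W
    congr 1
    simp only [zero_add, Fin.val_castSucc]
    ring
  funext i
  rw [h2, h1]
  rfl

theorem y_zero' (n : ℕ) : y n 0 = ((2 : ℤ) ^ 0 • (J + 2 • K0)) *ᵥ W n := by
  rw [y_zero, pow_zero, one_smul]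

theorem y_1 (n : ℕ) : y n 1 = ((2 : ℤ) ^ 3 • (J + 2 • K1)) *ᵥ W n := by
  rw [y_succ, y_zero', Matrix.mulVec_mulVec, K1_eq]

theorem y_2 (n : ℕ) : y n 2 = ((2 : ℤ) ^ 5 • (J + 2 • K2)) *ᵥ W n := by
  rw [y_succ, y_1, Matrix.mulVec_mulVec, K2_eq]

theorem y_3 (n : ℕ) : y n 3 = ((2 : ℤ) ^ 8 • (J + 2 • K3)) *ᵥ W n := by
  rw [y_succ, y_2, Matrix.mulVec_mulVec, K3_eq]

theorem y_4 (n : ℕ) : y n 4 = ((2 : ℤ) ^ 10 • (J + 2 • K4)) *ᵥ W n := by
  rw [y_succ, y_3, Matrix.mulVec_mulVec, K4_eq]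

theorem y_5 (n : ℕ) : y n 5 = ((2 : ℤ) ^ 13 • (J + 2 • K5)) *ᵥ W n := by
  rw [y_succ, y_4, Matrix.mulVec_mulVec, K5_eq]

theorem y_6 (n : ℕ) : y n 6 = ((2 : ℤ) ^ 15 • (J + 2 • K6)) *ᵥ W n := by
  rw [y_succ, y_5, Matrix.mulVec_mulVec, K6_eq]

theorem y_7 (n : ℕ) : y n 7 = ((2 : ℤ) ^ 18 • (J + 2 • K7)) *ᵥ W n := by
  rw [y_succ, y_6, Matrix.mulVec_mulVec, K7_eq]

theorem y_8 (n : ℕ) : y n 8 = (6560 : ℤ) • y n 6 + (-8472576 : ℤ) • y n 4 + (2235564032 : ℤ) • y n 2 + (-68719476736 : ℤ) • y n 0 := by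
  rw [y_succ n 7, y_7, Matrix.mulVec_mulVec, Krel]
  rw [y_6, y_4, y_2, y_zero']
  simp only [Matrix.add_mulVec, Matrix.smul_mulVec]

theorem y_rec (n v : ℕ) : y n (v + 8) = (6560 : ℤ) • y n (v + 6) + (-8472576 : ℤ) • y n (v + 4) + (2235564032 : ℤ) • y n (v + 2) + (-68719476736 : ℤ) • y n (v + 0) := by
  induction v with
  | zero => simpa using y_8 n
  | succ v ih =>
    have e : v + 1 + 8 = (v + 8) + 1 := by omega
    rw [e, y_succ, ih]
    simp only [Matrix.mulVec_add, Matrix.mulVec_smul, ← y_succ]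

theorem y_val (n : ℕ) (i : Fin 8) (v : ℕ) : P (5 * (v / 2) + 3 * (v % 2)) (y n v i) := by
  induction v using Nat.strong_induction_on with
  | _ v ih =>
    rcases Nat.lt_or_ge v 8 with hv | hv
    · interval_cases v
      · exact ⟨((J + 2 • K0) *ᵥ W n) i, JK_odd _ n i, by rw [y_zero', Matrix.smul_mulVec]; rfl⟩
      · exact ⟨((J + 2 • K1) *ᵥ W n) i, JK_odd _ n i, by rw [y_1, Matrix.smul_mulVec]; rfl⟩
      · exact ⟨((J + 2 • K2) *ᵥ W n) i, JK_odd _ n i, by rw [y_2, Matrix.smul_mulVec]; rfl⟩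
      · exact ⟨((J + 2 • K3) *ᵥ W n) i, JK_odd _ n i, by rw [y_3, Matrix.smul_mulVec]; rfl⟩
      · exact ⟨((J + 2 • K4) *ᵥ W n) i, JK_odd _ n i, by rw [y_4, Matrix.smul_mulVec]; rfl⟩
      · exact ⟨((J + 2 • K5) *ᵥ W n) i, JK_odd _ n i, by rw [y_5, Matrix.smul_mulVec]; rfl⟩
      · exact ⟨((J + 2 • K6) *ᵥ W n) i, JK_odd _ n i, by rw [y_6, Matrix.smul_mulVec]; rfl⟩
      · exact ⟨((J + 2 • K7) *ᵥ W n) i, JK_odd _ n i, by rw [y_7, Matrix.smul_mulVec]; rfl⟩
    · obtain ⟨u, rfl⟩ := Nat.exists_eq_add_of_le' hv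
      obtain ⟨z6, hz6, e6⟩ := ih (u + 6) (by omega)
      obtain ⟨z4, hz4, e4⟩ := ih (u + 4) (by omega)
      obtain ⟨z2, hz2, e2⟩ := ih (u + 2) (by omega)
      obtain ⟨z0, hz0, e0⟩ := ih (u + 0) (by omega)
      have e : y n (u + 8) i = 6560 * y n (u + 6) i + -8472576 * y n (u + 4) i + 2235564032 * y n (u + 2) i + -68719476736 * y n (u + 0) i := by
        rw [y_rec]
        simp [smul_eq_mul]
      have hm : (u + 8) % 2 = u % 2 := by omega
      have hd : (u + 8) / 2 = u / 2 + 4 := by omega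
      refine ⟨205 * z6 + -8274 * z4 + 68224 * z2 + -65536 * z0, ?_, ?_⟩
      · rw [Int.odd_iff] at *
        omega
      · rw [e, e6, e4, e2, e0, hm, hd]
        rw [show 5 * ((u + 6) / 2) + 3 * ((u + 6) % 2) = (5 * (u / 2) + 3 * (u % 2)) + 15 by omega, pow_add _ _ 15]
        rw [show 5 * ((u + 4) / 2) + 3 * ((u + 4) % 2) = (5 * (u / 2) + 3 * (u % 2)) + 10 by omega, pow_add _ _ 10]
        rw [show 5 * ((u + 2) / 2) + 3 * ((u + 2) % 2) = (5 * (u / 2) + 3 * (u % 2)) + 5 by omega, pow_add _ _ 5]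
        rw [show 5 * (u / 2 + 4) + 3 * (u % 2) = (5 * (u / 2) + 3 * (u % 2)) + 20 by omega, pow_add _ _ 20]
        simp only [add_zero]
        ring

theorem main (n j : ℕ) (hj : j < 8) :
    t 9 (8 * n + j) ≠ 0 ∧
    padicValInt 2 (t 9 (8 * n + j)) + 2 * (padicValNat 2 (n + 1) % 2) =
      5 * ((padicValNat 2 (n + 1) + 1) / 2) := by
  obtain ⟨v, a, ha, hn⟩ : ∃ v a : ℕ, v = padicValNat 2 (n + 1) ∧ n + 1 = 2 ^ v * (2 * a + 1) := by
    obtain ⟨v, b, hb, h⟩ := Nat.exists_eq_two_pow_mul_odd (n := n + 1) (by omega)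
    obtain ⟨a, rfl⟩ := hb
    refine ⟨v, a, ?_, h⟩
    rw [h, padicValNat.mul (by positivity) (by omega), padicValNat.prime_pow,
      padicValNat.eq_zero_of_not_dvd (by omega : ¬ 2 ∣ 2 * a + 1), add_zero]
  have h := (y_val a ⟨7 - j, by omega⟩ v).val
  have e : y a v ⟨7 - j, by omega⟩ = t 9 (8 * n + j) := by
    rw [← T_natCast]
    unfold y
    congr 1
    have h1 : (2 : ℤ) ^ (v + 3) * (2 * (a : ℤ) + 1) = 8 * ((n : ℤ) + 1) := by
      have : ((n : ℤ) + 1) = 2 ^ v * (2 * a + 1) := by exact_mod_cast hn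
      rw [this, pow_add]
      ring
    rw [h1]
    push_cast [Nat.cast_sub (by omega : j ≤ 7)]
    ring
  rw [e] at h
  refine ⟨h.1, ?_⟩
  rw [h.2, ← ha]
  omega

end Nine


theorem ceil_half (v : ℕ) : ⌈(v : ℚ) / 2⌉ = (((v + 1) / 2 : ℕ) : ℤ) := by
  rcases Nat.even_or_odd' v with ⟨s, rfl | rfl⟩
  · rw [show (2 * s + 1) / 2 = s by omega, Int.ceil_eq_iff]
    push_cast
    constructor <;> linarith
  · rw [show (2 * s + 1 + 1) / 2 = s + 1 by omega, Int.ceil_eq_iff]
    push_cast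
    constructor <;> linarith


/-- **Question 2.**  Both explicit cases hold for all `n`: with `v = ν₂(n + 1)`,
`ν₂(t_5(4n + j)) = 4⌈v/2⌉ - (v mod 2)` for `j < 4`, and `ν₂(t_9(8n + j)) = 5⌈v/2⌉ - 2(v mod 2)`
for `j < 8` (and these coefficients are nonzero).  The first clause records that `t m n` is the
coefficient of `x^n` in `∏_{i < N} (1 - x^(2^i))^m` for every `N > n`. -/
theorem result :
    (∀ m n N : ℕ, n < N → (∏ i ∈ range N, (1 - (X : ℤ[X]) ^ (2 ^ i)) ^ m).coeff n = t m n) ∧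
    (∀ n j : ℕ, j < 4 → t 5 (4 * n + j) ≠ 0 ∧
      (padicValInt 2 (t 5 (4 * n + j)) : ℤ) =
        4 * ⌈(padicValNat 2 (n + 1) : ℚ) / 2⌉ - (padicValNat 2 (n + 1) % 2 : ℕ)) ∧
    (∀ n j : ℕ, j < 8 → t 9 (8 * n + j) ≠ 0 ∧
      (padicValInt 2 (t 9 (8 * n + j)) : ℤ) =
        5 * ⌈(padicValNat 2 (n + 1) : ℚ) / 2⌉ - 2 * (padicValNat 2 (n + 1) % 2 : ℕ)) := by
  refine ⟨fun m n N h => ?_, fun n j hj => ?_, fun n j hj => ?_⟩
  · exact coeff_G_eq (lt_trans h Nat.lt_two_pow_self)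
  · obtain ⟨h0, h⟩ := Five.main n j hj
    refine ⟨h0, ?_⟩
    rw [ceil_half]
    omega
  · obtain ⟨h0, h⟩ := Nine.main n j hj
    refine ⟨h0, ?_⟩
    rw [ceil_half]
    omega

end Pool.Agent.Results.MP_1a5b88_nt.FiveNine
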